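import Pool.Agent.H12.SP.Defs

/-!
# MP_634266_nt, module CNT: counting in residue classes
-/

set_option autoImplicit false

namespace Pool.Agent.H13.SP

open Pool.Agent.H12.SP Finset

theorem pf_cnt : T_CNT := by
  intro x T p hp hinj A hA
  set M : ℕ := ∏ l ∈ T, (p l) ^ 2 with hM
  have hMpos : 0 < M := Finset.prod_pos fun l hl => pow_pos (hp l hl).pos 2
  have hcong : ∀ n ∈ A, ∀ n' ∈ A, (M : ℤ) ∣ (n : ℤ) - n' := by
    intro n hn n' hn'
    have hMz : (M : ℤ) = ∏ l ∈ T, ((p l : ℤ) ^ 2) := by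
      rw [hM]
      push_cast
      rfl
    rw [hMz]
    refine Finset.prod_dvd_of_coprime ?_ ?_
    · intro l hl l' hl' hne
      have h1 : p l ≠ p l' := fun h => hne (hinj l hl l' hl' h)
      have h2 : Nat.Coprime (p l) (p l') := (Nat.coprime_primes (hp l hl) (hp l' hl')).2 h1
      exact (Nat.isCoprime_iff_coprime.2 h2).pow
    · intro l hl
      obtain ⟨h1, h2⟩ := (hA n hn).2 l hl
      obtain ⟨h3, h4⟩ := (hA n' hn').2 l hl
      have h5 : ((p l : ℤ) ^ 2) ∣ (n : ℤ) - 2 ^ l := by
        have := Int.natCast_dvd_natCast.2 h2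
        rw [Nat.cast_sub h1.le] at this
        push_cast at this
        exact this
      have h6 : ((p l : ℤ) ^ 2) ∣ (n' : ℤ) - 2 ^ l := by
        have := Int.natCast_dvd_natCast.2 h4
        rw [Nat.cast_sub h3.le] at this
        push_cast at this
        exact this
      have := dvd_sub h5 h6
      have e : (n : ℤ) - 2 ^ l - (n' - 2 ^ l) = n - n' := by ring
      rwa [e] at this
  have hcard : A.card ≤ x / M + 1 := by
    rw [← Finset.card_range (x / M + 1)]
    refine Finset.card_le_card_of_injOn (fun n => n / M) ?_ ?_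
    · intro n hn
      have h1 : n / M ≤ x / M := Nat.div_le_div_right (hA n hn).1
      simp only [coe_range, Set.mem_Iio]
      omega
    · intro n hn n' hn' h
      simp only at h
      have h1 : n % M = n' % M := by
        have := hcong n hn n' hn'
        have h2 : (n' : ℤ) ≡ n [ZMOD M] := (Int.modEq_iff_dvd).2 this
        have h3 : n' ≡ n [MOD M] := (Int.natCast_modEq_iff).1 h2
        exact h3.symm
      rw [← Nat.div_add_mod n M, ← Nat.div_add_mod n' M, h, h1]
  have h1 : (A.card : ℝ) ≤ ((x / M + 1 : ℕ) : ℝ) := by exact_mod_cast hcard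
  have h2 : ((x / M + 1 : ℕ) : ℝ) ≤ (x : ℝ) / M + 1 := by
    push_cast
    have := @Nat.cast_div_le ℝ _ _ _ x M
    linarith
  have h3 : (M : ℝ) = ∏ l ∈ T, (p l : ℝ) ^ 2 := by
    rw [hM]
    push_cast
    rfl
  rw [← h3]
  exact h1.trans h2

end Pool.Agent.H13.SP
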